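import Mathlib

/-!
Data and kernel checks for the counterexample: a polynomial `F` in 8 variables
(a cubic with 56 nodes plus terms of degree 4 and 5), 56 parametrised curves on which `F` and its
partial derivatives vanish, a linear functional `W` and the certificates `mu`.
-/

namespace Pool.Agent.Lib.MP_36a065_ag

def Fdata : List (ℤ × List (Fin 8)) := [
  (24,[3,7,7]), (24,[2,6,6]), (-24,[2,3,3]), (-24,[2,2,3]), (24,[1,5,5]), (-24,[1,3,3]),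
  (-48,[1,2,3]), (-24,[1,2,2]), (-24,[1,1,3]), (-24,[1,1,2]), (24,[0,4,4]), (-24,[0,3,3]),
  (-48,[0,2,3]), (-24,[0,2,2]), (-48,[0,1,3]), (-48,[0,1,2]), (-24,[0,1,1]), (-24,[0,0,3]),
  (-24,[0,0,2]), (-24,[0,0,1]), (-48,[4,5,6,7]), (18,[3,5,5,6,6]), (18,[3,4,4,6,6]),
  (18,[3,4,4,5,5]), (-12,[3,3,3,6,6]), (-12,[3,3,3,5,5]), (-12,[3,3,3,4,4]), (6,[3,3,3,3,3]),
  (18,[2,5,5,7,7]), (18,[2,4,4,7,7]), (18,[2,4,4,5,5]), (-36,[2,3,3,7,7]), (-15,[2,3,3,6,6]),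
  (-3,[2,3,3,3,3]), (-15,[2,2,3,7,7]), (-36,[2,2,3,6,6]), (-12,[2,2,2,7,7]), (-12,[2,2,2,5,5]),
  (-12,[2,2,2,4,4]), (-3,[2,2,2,2,3]), (6,[2,2,2,2,2]), (18,[1,6,6,7,7]), (18,[1,4,4,7,7]),
  (18,[1,4,4,6,6]), (-36,[1,3,3,7,7]), (-15,[1,3,3,5,5]), (-3,[1,3,3,3,3]), (-12,[1,2,3,4,4]),
  (-36,[1,2,2,6,6]), (-15,[1,2,2,5,5]), (-3,[1,2,2,2,2]), (-15,[1,1,3,7,7]), (-36,[1,1,3,5,5]),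
  (-15,[1,1,2,6,6]), (-36,[1,1,2,5,5]), (-12,[1,1,1,7,7]), (-12,[1,1,1,6,6]), (-12,[1,1,1,4,4]),
  (-3,[1,1,1,1,3]), (-3,[1,1,1,1,2]), (6,[1,1,1,1,1]), (18,[0,6,6,7,7]), (18,[0,5,5,7,7]),
  (18,[0,5,5,6,6]), (-36,[0,3,3,7,7]), (-15,[0,3,3,4,4]), (-3,[0,3,3,3,3]), (-12,[0,2,3,5,5]),
  (-36,[0,2,2,6,6]), (-15,[0,2,2,4,4]), (-3,[0,2,2,2,2]), (-12,[0,1,3,6,6]), (-12,[0,1,2,7,7]),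
  (-54,[0,1,2,3,3]), (-54,[0,1,2,2,3]), (-36,[0,1,1,5,5]), (-15,[0,1,1,4,4]), (-54,[0,1,1,2,3]),
  (-3,[0,1,1,1,1]), (-15,[0,0,3,7,7]), (-36,[0,0,3,4,4]), (-15,[0,0,2,6,6]), (-36,[0,0,2,4,4]),
  (-15,[0,0,1,5,5]), (-36,[0,0,1,4,4]), (-54,[0,0,1,2,3]), (-12,[0,0,0,7,7]), (-12,[0,0,0,6,6]),
  (-12,[0,0,0,5,5]), (-3,[0,0,0,0,3]), (-3,[0,0,0,0,2]), (-3,[0,0,0,0,1]), (6,[0,0,0,0,0])]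

def table : List (List (ℤ × ℕ)) := [
  [(1,0),(0,0),(0,0),(0,0),(1,1),(1,0),(1,0),(1,0)],
  [(1,0),(0,0),(0,0),(0,0),(-1,1),(1,0),(1,0),(-1,0)],
  [(1,0),(0,0),(0,0),(0,0),(-1,1),(1,0),(-1,0),(1,0)],
  [(1,0),(0,0),(0,0),(0,0),(1,1),(1,0),(-1,0),(-1,0)],
  [(1,0),(0,0),(0,0),(0,0),(-1,1),(-1,0),(1,0),(1,0)],
  [(1,0),(0,0),(0,0),(0,0),(1,1),(-1,0),(1,0),(-1,0)],
  [(1,0),(0,0),(0,0),(0,0),(1,1),(-1,0),(-1,0),(1,0)],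
  [(1,0),(0,0),(0,0),(0,0),(-1,1),(-1,0),(-1,0),(-1,0)],
  [(0,0),(1,0),(0,0),(0,0),(1,0),(1,1),(1,0),(1,0)],
  [(0,0),(1,0),(0,0),(0,0),(1,0),(-1,1),(1,0),(-1,0)],
  [(0,0),(1,0),(0,0),(0,0),(1,0),(-1,1),(-1,0),(1,0)],
  [(0,0),(1,0),(0,0),(0,0),(1,0),(1,1),(-1,0),(-1,0)],
  [(0,0),(1,0),(0,0),(0,0),(-1,0),(-1,1),(1,0),(1,0)],
  [(0,0),(1,0),(0,0),(0,0),(-1,0),(1,1),(1,0),(-1,0)],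
  [(0,0),(1,0),(0,0),(0,0),(-1,0),(1,1),(-1,0),(1,0)],
  [(0,0),(1,0),(0,0),(0,0),(-1,0),(-1,1),(-1,0),(-1,0)],
  [(0,0),(0,0),(1,0),(0,0),(1,0),(1,0),(1,1),(1,0)],
  [(0,0),(0,0),(1,0),(0,0),(1,0),(1,0),(-1,1),(-1,0)],
  [(0,0),(0,0),(1,0),(0,0),(1,0),(-1,0),(-1,1),(1,0)],
  [(0,0),(0,0),(1,0),(0,0),(1,0),(-1,0),(1,1),(-1,0)],
  [(0,0),(0,0),(1,0),(0,0),(-1,0),(1,0),(-1,1),(1,0)],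
  [(0,0),(0,0),(1,0),(0,0),(-1,0),(1,0),(1,1),(-1,0)],
  [(0,0),(0,0),(1,0),(0,0),(-1,0),(-1,0),(1,1),(1,0)],
  [(0,0),(0,0),(1,0),(0,0),(-1,0),(-1,0),(-1,1),(-1,0)],
  [(0,0),(0,0),(0,0),(1,0),(1,0),(1,0),(1,0),(1,1)],
  [(0,0),(0,0),(0,0),(1,0),(1,0),(1,0),(-1,0),(-1,1)],
  [(0,0),(0,0),(0,0),(1,0),(1,0),(-1,0),(1,0),(-1,1)],
  [(0,0),(0,0),(0,0),(1,0),(1,0),(-1,0),(-1,0),(1,1)],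
  [(0,0),(0,0),(0,0),(1,0),(-1,0),(1,0),(1,0),(-1,1)],
  [(0,0),(0,0),(0,0),(1,0),(-1,0),(1,0),(-1,0),(1,1)],
  [(0,0),(0,0),(0,0),(1,0),(-1,0),(-1,0),(1,0),(1,1)],
  [(0,0),(0,0),(0,0),(1,0),(-1,0),(-1,0),(-1,0),(-1,1)],
  [(-1,0),(0,0),(1,0),(1,0),(0,0),(1,0),(0,0),(0,0)],
  [(-1,0),(0,0),(1,0),(1,0),(0,0),(-1,0),(0,0),(0,0)],
  [(-1,0),(1,0),(0,0),(1,0),(0,0),(0,0),(1,0),(0,0)],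
  [(-1,0),(1,0),(0,0),(1,0),(0,0),(0,0),(-1,0),(0,0)],
  [(-1,0),(1,0),(1,0),(0,0),(0,0),(0,0),(0,0),(1,0)],
  [(-1,0),(1,0),(1,0),(0,0),(0,0),(0,0),(0,0),(-1,0)],
  [(0,0),(-1,0),(1,0),(1,0),(1,0),(0,0),(0,0),(0,0)],
  [(0,0),(-1,0),(1,0),(1,0),(-1,0),(0,0),(0,0),(0,0)],
  [(1,0),(-1,0),(0,0),(1,0),(0,0),(0,0),(1,0),(0,0)],
  [(1,0),(-1,0),(0,0),(1,0),(0,0),(0,0),(-1,0),(0,0)],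
  [(1,0),(-1,0),(1,0),(0,0),(0,0),(0,0),(0,0),(1,0)],
  [(1,0),(-1,0),(1,0),(0,0),(0,0),(0,0),(0,0),(-1,0)],
  [(0,0),(1,0),(-1,0),(1,0),(1,0),(0,0),(0,0),(0,0)],
  [(0,0),(1,0),(-1,0),(1,0),(-1,0),(0,0),(0,0),(0,0)],
  [(1,0),(0,0),(-1,0),(1,0),(0,0),(1,0),(0,0),(0,0)],
  [(1,0),(0,0),(-1,0),(1,0),(0,0),(-1,0),(0,0),(0,0)],
  [(1,0),(1,0),(-1,0),(0,0),(0,0),(0,0),(0,0),(1,0)],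
  [(1,0),(1,0),(-1,0),(0,0),(0,0),(0,0),(0,0),(-1,0)],
  [(0,0),(1,0),(1,0),(-1,0),(1,0),(0,0),(0,0),(0,0)],
  [(0,0),(1,0),(1,0),(-1,0),(-1,0),(0,0),(0,0),(0,0)],
  [(1,0),(0,0),(1,0),(-1,0),(0,0),(1,0),(0,0),(0,0)],
  [(1,0),(0,0),(1,0),(-1,0),(0,0),(-1,0),(0,0),(0,0)],
  [(1,0),(1,0),(0,0),(-1,0),(0,0),(0,0),(1,0),(0,0)],
  [(1,0),(1,0),(0,0),(-1,0),(0,0),(0,0),(-1,0),(0,0)]]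

def Wdata : List (List ℕ × ℤ) := [
  ([0,0,0,0,1,1,1,1],24), ([0,0,0,1,0,0,0,2],24), ([0,0,0,3,0,0,0,0],-24),
  ([0,0,1,0,0,0,2,0],24), ([0,0,3,0,0,0,0,0],-24), ([0,1,0,0,0,2,0,0],24), ([0,1,1,1,0,0,0,0],4),
  ([0,3,0,0,0,0,0,0],-24), ([1,0,0,0,2,0,0,0],24), ([1,0,1,1,0,0,0,0],4), ([1,1,0,1,0,0,0,0],4),
  ([1,1,1,0,0,0,0,0],4), ([3,0,0,0,0,0,0,0],-24)]

def mu0 : List (ℤ × List (ℤ × ℕ)) := [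
  (-3,[(-1,0),(1,0),(0,0),(1,0),(0,0),(0,0),(1,0),(0,0)]),
  (-3,[(-1,0),(1,0),(0,0),(1,0),(0,0),(0,0),(-1,0),(0,0)]),
  (3,[(-1,0),(1,0),(1,0),(0,0),(0,0),(0,0),(0,0),(1,0)]),
  (3,[(-1,0),(1,0),(1,0),(0,0),(0,0),(0,0),(0,0),(-1,0)]),
  (4,[(0,0),(-1,0),(1,0),(1,0),(1,0),(0,0),(0,0),(0,0)]),
  (4,[(0,0),(-1,0),(1,0),(1,0),(-1,0),(0,0),(0,0),(0,0)]),
  (-3,[(1,0),(-1,0),(0,0),(1,0),(0,0),(0,0),(1,0),(0,0)]),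
  (-3,[(1,0),(-1,0),(0,0),(1,0),(0,0),(0,0),(-1,0),(0,0)]),
  (-3,[(1,0),(-1,0),(1,0),(0,0),(0,0),(0,0),(0,0),(1,0)]),
  (-3,[(1,0),(-1,0),(1,0),(0,0),(0,0),(0,0),(0,0),(-1,0)]),
  (7,[(0,0),(1,0),(-1,0),(1,0),(1,0),(0,0),(0,0),(0,0)]),
  (7,[(0,0),(1,0),(-1,0),(1,0),(-1,0),(0,0),(0,0),(0,0)]),
  (-6,[(1,0),(0,0),(-1,0),(1,0),(0,0),(1,0),(0,0),(0,0)]),
  (-6,[(1,0),(1,0),(-1,0),(0,0),(0,0),(0,0),(0,0),(1,0)]),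
  (-6,[(1,0),(1,0),(-1,0),(0,0),(0,0),(0,0),(0,0),(-1,0)]),
  (1,[(0,0),(1,0),(1,0),(-1,0),(1,0),(0,0),(0,0),(0,0)]),
  (1,[(0,0),(1,0),(1,0),(-1,0),(-1,0),(0,0),(0,0),(0,0)]),
  (-6,[(1,0),(0,0),(1,0),(-1,0),(0,0),(1,0),(0,0),(0,0)]),
  (3,[(1,0),(0,0),(0,0),(0,0),(1,1),(1,0),(1,0),(1,0)]),
  (3,[(1,0),(0,0),(0,0),(0,0),(-1,1),(1,0),(1,0),(-1,0)]),
  (3,[(1,0),(0,0),(0,0),(0,0),(-1,1),(1,0),(-1,0),(1,0)]),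
  (3,[(1,0),(0,0),(0,0),(0,0),(1,1),(1,0),(-1,0),(-1,0)])]

def mu1 : List (ℤ × List (ℤ × ℕ)) := [
  (12,[(-1,0),(0,0),(1,0),(1,0),(0,0),(1,0),(0,0),(0,0)]),
  (12,[(-1,0),(0,0),(1,0),(1,0),(0,0),(-1,0),(0,0),(0,0)]),
  (-10,[(-1,0),(1,0),(0,0),(1,0),(0,0),(0,0),(1,0),(0,0)]),
  (-10,[(-1,0),(1,0),(0,0),(1,0),(0,0),(0,0),(-1,0),(0,0)]),
  (-4,[(-1,0),(1,0),(1,0),(0,0),(0,0),(0,0),(0,0),(1,0)]),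
  (-4,[(-1,0),(1,0),(1,0),(0,0),(0,0),(0,0),(0,0),(-1,0)]),
  (-8,[(0,0),(-1,0),(1,0),(1,0),(1,0),(0,0),(0,0),(0,0)]),
  (-8,[(0,0),(-1,0),(1,0),(1,0),(-1,0),(0,0),(0,0),(0,0)]),
  (4,[(1,0),(-1,0),(0,0),(1,0),(0,0),(0,0),(1,0),(0,0)]),
  (4,[(1,0),(-1,0),(0,0),(1,0),(0,0),(0,0),(-1,0),(0,0)]),
  (4,[(1,0),(-1,0),(1,0),(0,0),(0,0),(0,0),(0,0),(1,0)]),
  (4,[(1,0),(-1,0),(1,0),(0,0),(0,0),(0,0),(0,0),(-1,0)]),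
  (7,[(0,0),(1,0),(-1,0),(1,0),(1,0),(0,0),(0,0),(0,0)]),
  (7,[(0,0),(1,0),(-1,0),(1,0),(-1,0),(0,0),(0,0),(0,0)]),
  (-6,[(1,0),(0,0),(-1,0),(1,0),(0,0),(1,0),(0,0),(0,0)]),
  (-6,[(1,0),(1,0),(-1,0),(0,0),(0,0),(0,0),(0,0),(1,0)]),
  (-6,[(1,0),(1,0),(-1,0),(0,0),(0,0),(0,0),(0,0),(-1,0)]),
  (1,[(0,0),(1,0),(1,0),(-1,0),(1,0),(0,0),(0,0),(0,0)]),
  (1,[(0,0),(1,0),(1,0),(-1,0),(-1,0),(0,0),(0,0),(0,0)]),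
  (-6,[(1,0),(0,0),(1,0),(-1,0),(0,0),(1,0),(0,0),(0,0)]),
  (3,[(1,0),(0,0),(0,0),(0,0),(1,1),(1,0),(1,0),(1,0)]),
  (3,[(1,0),(0,0),(0,0),(0,0),(-1,1),(1,0),(1,0),(-1,0)]),
  (3,[(1,0),(0,0),(0,0),(0,0),(-1,1),(1,0),(-1,0),(1,0)]),
  (3,[(1,0),(0,0),(0,0),(0,0),(1,1),(1,0),(-1,0),(-1,0)])]

def mu2 : List (ℤ × List (ℤ × ℕ)) := [
  (2,[(-1,0),(1,0),(0,0),(1,0),(0,0),(0,0),(1,0),(0,0)]),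
  (2,[(-1,0),(1,0),(0,0),(1,0),(0,0),(0,0),(-1,0),(0,0)]),
  (-4,[(-1,0),(1,0),(1,0),(0,0),(0,0),(0,0),(0,0),(1,0)]),
  (-4,[(-1,0),(1,0),(1,0),(0,0),(0,0),(0,0),(0,0),(-1,0)]),
  (-3,[(0,0),(-1,0),(1,0),(1,0),(1,0),(0,0),(0,0),(0,0)]),
  (-3,[(0,0),(-1,0),(1,0),(1,0),(-1,0),(0,0),(0,0),(0,0)]),
  (4,[(1,0),(-1,0),(0,0),(1,0),(0,0),(0,0),(1,0),(0,0)]),
  (4,[(1,0),(-1,0),(0,0),(1,0),(0,0),(0,0),(-1,0),(0,0)]),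
  (-3,[(1,0),(-1,0),(1,0),(0,0),(0,0),(0,0),(0,0),(1,0)]),
  (-3,[(1,0),(-1,0),(1,0),(0,0),(0,0),(0,0),(0,0),(-1,0)]),
  (2,[(0,0),(1,0),(-1,0),(1,0),(1,0),(0,0),(0,0),(0,0)]),
  (2,[(0,0),(1,0),(-1,0),(1,0),(-1,0),(0,0),(0,0),(0,0)]),
  (-6,[(1,0),(0,0),(-1,0),(1,0),(0,0),(1,0),(0,0),(0,0)]),
  (1,[(1,0),(1,0),(-1,0),(0,0),(0,0),(0,0),(0,0),(1,0)]),
  (1,[(1,0),(1,0),(-1,0),(0,0),(0,0),(0,0),(0,0),(-1,0)]),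
  (1,[(0,0),(1,0),(1,0),(-1,0),(1,0),(0,0),(0,0),(0,0)]),
  (1,[(0,0),(1,0),(1,0),(-1,0),(-1,0),(0,0),(0,0),(0,0)]),
  (-6,[(1,0),(0,0),(1,0),(-1,0),(0,0),(1,0),(0,0),(0,0)]),
  (3,[(1,0),(0,0),(0,0),(0,0),(1,1),(1,0),(1,0),(1,0)]),
  (3,[(1,0),(0,0),(0,0),(0,0),(-1,1),(1,0),(1,0),(-1,0)]),
  (3,[(1,0),(0,0),(0,0),(0,0),(-1,1),(1,0),(-1,0),(1,0)]),
  (3,[(1,0),(0,0),(0,0),(0,0),(1,1),(1,0),(-1,0),(-1,0)])]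

def mu3 : List (ℤ × List (ℤ × ℕ)) := [
  (-3,[(-1,0),(1,0),(0,0),(1,0),(0,0),(0,0),(1,0),(0,0)]),
  (-3,[(-1,0),(1,0),(0,0),(1,0),(0,0),(0,0),(-1,0),(0,0)]),
  (1,[(-1,0),(1,0),(1,0),(0,0),(0,0),(0,0),(0,0),(1,0)]),
  (1,[(-1,0),(1,0),(1,0),(0,0),(0,0),(0,0),(0,0),(-1,0)]),
  (-3,[(0,0),(-1,0),(1,0),(1,0),(1,0),(0,0),(0,0),(0,0)]),
  (-3,[(0,0),(-1,0),(1,0),(1,0),(-1,0),(0,0),(0,0),(0,0)]),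
  (-3,[(1,0),(-1,0),(0,0),(1,0),(0,0),(0,0),(1,0),(0,0)]),
  (-3,[(1,0),(-1,0),(0,0),(1,0),(0,0),(0,0),(-1,0),(0,0)]),
  (4,[(1,0),(-1,0),(1,0),(0,0),(0,0),(0,0),(0,0),(1,0)]),
  (4,[(1,0),(-1,0),(1,0),(0,0),(0,0),(0,0),(0,0),(-1,0)]),
  (-6,[(1,0),(0,0),(-1,0),(1,0),(0,0),(1,0),(0,0),(0,0)]),
  (1,[(1,0),(1,0),(-1,0),(0,0),(0,0),(0,0),(0,0),(1,0)]),
  (1,[(1,0),(1,0),(-1,0),(0,0),(0,0),(0,0),(0,0),(-1,0)]),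
  (3,[(0,0),(1,0),(1,0),(-1,0),(1,0),(0,0),(0,0),(0,0)]),
  (3,[(0,0),(1,0),(1,0),(-1,0),(-1,0),(0,0),(0,0),(0,0)]),
  (-6,[(1,0),(0,0),(1,0),(-1,0),(0,0),(1,0),(0,0),(0,0)]),
  (3,[(1,0),(0,0),(0,0),(0,0),(1,1),(1,0),(1,0),(1,0)]),
  (3,[(1,0),(0,0),(0,0),(0,0),(-1,1),(1,0),(1,0),(-1,0)]),
  (3,[(1,0),(0,0),(0,0),(0,0),(-1,1),(1,0),(-1,0),(1,0)]),
  (3,[(1,0),(0,0),(0,0),(0,0),(1,1),(1,0),(-1,0),(-1,0)])]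

def mu4 : List (ℤ × List (ℤ × ℕ)) := [
  (3,[(1,0),(0,0),(0,0),(0,0),(1,1),(1,0),(1,0),(1,0)]),
  (-3,[(1,0),(0,0),(0,0),(0,0),(-1,1),(1,0),(1,0),(-1,0)]),
  (-3,[(1,0),(0,0),(0,0),(0,0),(-1,1),(1,0),(-1,0),(1,0)]),
  (3,[(1,0),(0,0),(0,0),(0,0),(1,1),(1,0),(-1,0),(-1,0)]),
  (-3,[(1,0),(0,0),(0,0),(0,0),(-1,1),(-1,0),(1,0),(1,0)]),
  (3,[(1,0),(0,0),(0,0),(0,0),(1,1),(-1,0),(1,0),(-1,0)]),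
  (3,[(1,0),(0,0),(0,0),(0,0),(1,1),(-1,0),(-1,0),(1,0)]),
  (-3,[(1,0),(0,0),(0,0),(0,0),(-1,1),(-1,0),(-1,0),(-1,0)])]

def mu5 : List (ℤ × List (ℤ × ℕ)) := [
  (3,[(0,0),(1,0),(0,0),(0,0),(1,0),(1,1),(1,0),(1,0)]),
  (-3,[(0,0),(1,0),(0,0),(0,0),(1,0),(-1,1),(1,0),(-1,0)]),
  (-3,[(0,0),(1,0),(0,0),(0,0),(1,0),(-1,1),(-1,0),(1,0)]),
  (3,[(0,0),(1,0),(0,0),(0,0),(1,0),(1,1),(-1,0),(-1,0)]),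
  (-3,[(0,0),(1,0),(0,0),(0,0),(-1,0),(-1,1),(1,0),(1,0)]),
  (3,[(0,0),(1,0),(0,0),(0,0),(-1,0),(1,1),(1,0),(-1,0)]),
  (3,[(0,0),(1,0),(0,0),(0,0),(-1,0),(1,1),(-1,0),(1,0)]),
  (-3,[(0,0),(1,0),(0,0),(0,0),(-1,0),(-1,1),(-1,0),(-1,0)])]

def mu6 : List (ℤ × List (ℤ × ℕ)) := [
  (3,[(0,0),(0,0),(1,0),(0,0),(1,0),(1,0),(1,1),(1,0)]),
  (-3,[(0,0),(0,0),(1,0),(0,0),(1,0),(1,0),(-1,1),(-1,0)]),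
  (-3,[(0,0),(0,0),(1,0),(0,0),(1,0),(-1,0),(-1,1),(1,0)]),
  (3,[(0,0),(0,0),(1,0),(0,0),(1,0),(-1,0),(1,1),(-1,0)]),
  (-3,[(0,0),(0,0),(1,0),(0,0),(-1,0),(1,0),(-1,1),(1,0)]),
  (3,[(0,0),(0,0),(1,0),(0,0),(-1,0),(1,0),(1,1),(-1,0)]),
  (3,[(0,0),(0,0),(1,0),(0,0),(-1,0),(-1,0),(1,1),(1,0)]),
  (-3,[(0,0),(0,0),(1,0),(0,0),(-1,0),(-1,0),(-1,1),(-1,0)])]

def mu7 : List (ℤ × List (ℤ × ℕ)) := [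
  (3,[(0,0),(0,0),(0,0),(1,0),(1,0),(1,0),(1,0),(1,1)]),
  (-3,[(0,0),(0,0),(0,0),(1,0),(1,0),(1,0),(-1,0),(-1,1)]),
  (-3,[(0,0),(0,0),(0,0),(1,0),(1,0),(-1,0),(1,0),(-1,1)]),
  (3,[(0,0),(0,0),(0,0),(1,0),(1,0),(-1,0),(-1,0),(1,1)]),
  (-3,[(0,0),(0,0),(0,0),(1,0),(-1,0),(1,0),(1,0),(-1,1)]),
  (3,[(0,0),(0,0),(0,0),(1,0),(-1,0),(1,0),(-1,0),(1,1)]),
  (3,[(0,0),(0,0),(0,0),(1,0),(-1,0),(-1,0),(1,0),(1,1)]),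
  (-3,[(0,0),(0,0),(0,0),(1,0),(-1,0),(-1,0),(-1,0),(-1,1)])]

def mu (s : Fin 8) : List (ℤ × List (ℤ × ℕ)) :=
  [mu0, mu1, mu2, mu3, mu4, mu5, mu6, mu7].getD s []

def dg (s : Fin 8) : ℕ := if s.val < 4 then 2 else 3

/-- Coefficient of the image of a monomial on a branch. -/
def wcoef (b : List (ℤ × ℕ)) : List (Fin 8) → ℤ
  | [] => 1
  | j :: l => (b.getD j (0, 0)).1 * wcoef b l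

/-- Degree of the image of a monomial on a branch. -/
def wdeg (b : List (ℤ × ℕ)) : List (Fin 8) → ℕ
  | [] => 0
  | j :: l => ((b.getD j (0, 0)).2 + 1) + wdeg b l

/-- Derivative of a monomial. -/
def dList (k : Fin 8) : List (Fin 8) → List (List (Fin 8))
  | [] => []
  | j :: l => (if j = k then [l] else []) ++ (dList k l).map (j :: ·)

/-- Derivative of a polynomial. -/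
def dPoly (k : Fin 8) (P : List (ℤ × List (Fin 8))) : List (ℤ × List (Fin 8)) :=
  P.flatMap (fun q => (dList k q.2).map (fun l => (q.1, l)))

def ev (b : List (ℤ × ℕ)) (P : List (ℤ × List (Fin 8))) : List (ℤ × ℕ) :=
  (P.map (fun q => (q.1 * wcoef b q.2, wdeg b q.2))).filter (fun q => q.1 != 0)

def coefQ (Q : List (ℤ × ℕ)) (e : ℕ) : ℤ := (Q.map (fun q => if q.2 = e then q.1 else 0)).sum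

def chk (Q : List (ℤ × ℕ)) : Bool := Q.all (fun q => coefQ Q q.2 == 0)

def key (m : Fin 8 → ℕ) : List ℕ := [m 0, m 1, m 2, m 3, m 4, m 5, m 6, m 7]

def W (m : Fin 8 → ℕ) : ℤ := (Wdata.lookup (key m)).getD 0

def rhs (s : Fin 8) (l : List (Fin 8)) : ℤ :=
  ((mu s).map (fun q => if wdeg q.2 l = dg s then q.1 * wcoef q.2 l else 0)).sum

def cert (s : Fin 8) (l : List (Fin 8)) : Bool := W (fun j => (s :: l).count j) == rhs s l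

theorem chk_F : table.all (fun b => chk (ev b Fdata)) = true := by decide +kernel

theorem chk_dF : ∀ k : Fin 8, table.all (fun b => chk (ev b (dPoly k Fdata))) = true := by
  decide +kernel

theorem mu_mem : ∀ s : Fin 8, ∀ q ∈ mu s, q.2 ∈ table := by decide +kernel

theorem W_F : (Fdata.map (fun q => q.1 * W (fun j => q.2.count j))).sum = 384 := by
  decide +kernel

theorem W_keys : ∀ q ∈ Wdata, q.1.sum ≤ 4 := by decide +kernel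

theorem cert0 : ∀ s : Fin 8, cert s [] = true := by decide +kernel
theorem cert1 : ∀ s a : Fin 8, cert s [a] = true := by decide +kernel
theorem cert2 : ∀ s a b : Fin 8, cert s [a, b] = true := by decide +kernel
theorem cert3 : ∀ s a b : Fin 8, a ≤ b → ∀ c : Fin 8, b ≤ c → cert s [a, b, c] = true := by
  decide +kernel

end Pool.Agent.Lib.MP_36a065_ag
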