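import Pool.Agent.Lib.MP_36a065_ag.General
import Pool.Agent.Lib.MP_36a065_ag.Data

namespace Pool.Agent.Lib.MP_36a065_ag

open MvPolynomial

variable (K : Type*) [Field K]

/-- The monomial given by a list of variables. -/
noncomputable def mono (l : List (Fin 8)) : MvPolynomial (Fin 8) K := (l.map X).prod

/-- The polynomial given by a list of terms. -/
noncomputable def poly (P : List (ℤ × List (Fin 8))) : MvPolynomial (Fin 8) K :=
  (P.map (fun q => (q.1 : K) • mono K q.2)).sum

/-- The parametrisation of a branch. -/
noncomputable def psi (b : List (ℤ × ℕ)) : MvPolynomial (Fin 8) K →ₐ[K] Polynomial K :=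
  aeval (fun j : Fin 8 => Polynomial.monomial ((b.getD j (0, 0)).2 + 1) (((b.getD j (0, 0)).1 : ℤ) : K))

/-- exponent vector of a list -/
noncomputable def cnt (l : List (Fin 8)) : Fin 8 →₀ ℕ := Multiset.toFinsupp (l : Multiset (Fin 8))

lemma cnt_apply (l : List (Fin 8)) (j : Fin 8) : cnt l j = l.count j := by
  simp [cnt]

lemma mono_cons (j : Fin 8) (l : List (Fin 8)) : mono K (j :: l) = X j * mono K l := by
  simp [mono]

lemma mono_eq (l : List (Fin 8)) : mono K l = monomial (cnt l) 1 := by
  induction l with
  | nil => simp [mono, cnt]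
  | cons j l ih =>
    have : cnt (j :: l) = Finsupp.single j 1 + cnt l := by
      unfold cnt
      rw [← Multiset.cons_coe, ← Multiset.singleton_add, Multiset.toFinsupp_add,
        Multiset.toFinsupp_singleton]
    rw [mono_cons, ih, this, X, monomial_mul, one_mul]

lemma exists_sorted (m : Fin 8 →₀ ℕ) : ∃ l : List (Fin 8), l.Pairwise (· ≤ ·) ∧ cnt l = m :=
  ⟨(Finsupp.toMultiset m).sort (· ≤ ·), Multiset.pairwise_sort _ _, by
    unfold cnt
    rw [Multiset.sort_eq]
    exact Multiset.toFinsupp_eq_iff.2 rfl⟩

lemma psi_mono (b : List (ℤ × ℕ)) (l : List (Fin 8)) :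
    psi K b (mono K l) = Polynomial.monomial (wdeg b l) ((wcoef b l : ℤ) : K) := by
  induction l with
  | nil => simp [mono, wdeg, wcoef]
  | cons j l ih =>
    rw [mono_cons, map_mul, ih, psi, aeval_X, Polynomial.monomial_mul_monomial]
    simp [wdeg, wcoef]

lemma pderiv_mono (k : Fin 8) (l : List (Fin 8)) :
    pderiv k (mono K l) = ((dList k l).map (mono K)).sum := by
  induction l with
  | nil => simp [mono, dList]
  | cons j l ih =>
    rw [mono_cons, Derivation.leibniz, ih, dList, List.map_append, List.sum_append, add_comm]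
    congr 1
    · by_cases h : j = k
      · subst h; simp
      · simp [h, pderiv_X]
    · rw [List.map_map, smul_eq_mul, ← List.sum_map_mul_left]
      congr 1

lemma pderiv_poly (k : Fin 8) (P : List (ℤ × List (Fin 8))) :
    pderiv k (poly K P) = poly K (dPoly k P) := by
  induction P with
  | nil => simp [poly, dPoly]
  | cons q P ih =>
    unfold poly dPoly at *
    rw [List.map_cons, List.sum_cons, map_add, ih, List.flatMap_cons, List.map_append,
      List.sum_append, Derivation.map_smul, pderiv_mono, List.smul_sum, List.map_map,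
      List.map_map]
    rfl

lemma coeff_sum_monomial (Q : List (ℤ × ℕ)) (e : ℕ) :
    ((Q.map (fun q => Polynomial.monomial q.2 ((q.1 : ℤ) : K))).sum).coeff e
      = ((coefQ Q e : ℤ) : K) := by
  induction Q with
  | nil => simp [coefQ]
  | cons q Q ih =>
    unfold coefQ at *
    rw [List.map_cons, List.sum_cons, Polynomial.coeff_add, ih, List.map_cons, List.sum_cons,
      Polynomial.coeff_monomial]
    split_ifs <;> simp

lemma sum_eq_zero_of_chk (Q : List (ℤ × ℕ)) (h : chk Q = true) :
    (Q.map (fun q => Polynomial.monomial q.2 ((q.1 : ℤ) : K))).sum = 0 := by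
  ext e
  rw [coeff_sum_monomial, Polynomial.coeff_zero]
  by_cases he : ∃ q ∈ Q, q.2 = e
  · obtain ⟨q, hq, rfl⟩ := he
    have := List.all_eq_true.1 h q hq
    rw [beq_iff_eq] at this
    rw [this, Int.cast_zero]
  · have : coefQ Q e = 0 := by
      apply List.sum_eq_zero
      intro x hx
      obtain ⟨q, hq, rfl⟩ := List.mem_map.1 hx
      rw [if_neg (fun h' => he ⟨q, hq, h'⟩)]
    rw [this, Int.cast_zero]

lemma psi_poly (b : List (ℤ × ℕ)) (P : List (ℤ × List (Fin 8))) :
    psi K b (poly K P) =
      ((ev b P).map (fun q => Polynomial.monomial q.2 ((q.1 : ℤ) : K))).sum := by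
  induction P with
  | nil => simp [poly, ev]
  | cons q P ih =>
    unfold poly ev at *
    rw [List.map_cons, List.sum_cons, map_add, ih, map_smul, psi_mono, List.map_cons,
      List.filter_cons, Polynomial.smul_monomial, smul_eq_mul, ← Int.cast_mul]
    split_ifs with h
    · simp
    · have h' : q.1 * wcoef b q.2 = 0 := by
        by_contra h'
        exact h (by simpa using h')
      rw [h']
      simp

/-- The radical ideal of the union of the 56 branches. -/
noncomputable def I0 : Ideal (MvPolynomial (Fin 8) K) :=
  ⨅ b ∈ table, RingHom.ker (psi K b)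

lemma mem_I0 {H : MvPolynomial (Fin 8) K} : H ∈ I0 K ↔ ∀ b ∈ table, psi K b H = 0 := by
  simp [I0, RingHom.mem_ker]

lemma I0_radical : (I0 K).IsRadical := by
  intro H ⟨n, hn⟩
  rw [mem_I0] at hn ⊢
  intro b hb
  have := hn b hb
  rw [map_pow] at this
  exact IsNilpotent.eq_zero ⟨n, this⟩

lemma I0_le : I0 K ≤ mX K (Fin 8) := by
  intro H hH
  obtain ⟨b, hb⟩ : ∃ b, b ∈ table := ⟨table.headD [], by decide +kernel⟩
  have h := (mem_I0 K).1 hH _ hb
  have key : (Polynomial.evalRingHom (0 : K)).comp (psi K b).toRingHom
      = constantCoeff := by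
    apply MvPolynomial.ringHom_ext
    · intro r; simp [psi]
    · intro i; simp [psi]
  have := RingHom.congr_fun key H
  rw [mX, RingHom.mem_ker, ← this]
  simp [h]

/-- The polynomial. -/
noncomputable def F : MvPolynomial (Fin 8) K := poly K Fdata

lemma F_mem : F K ∈ I0 K := by
  rw [mem_I0]
  intro b hb
  rw [F, psi_poly]
  exact sum_eq_zero_of_chk K _ (List.all_eq_true.1 chk_F b hb)

lemma dF_mem (k : Fin 8) : pderiv k (F K) ∈ I0 K := by
  rw [mem_I0]
  intro b hb
  rw [F, pderiv_poly, psi_poly]
  exact sum_eq_zero_of_chk K _ (List.all_eq_true.1 (chk_dF k) b hb)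

/-- The linear functional. -/
noncomputable def phi : MvPolynomial (Fin 8) K →ₗ[K] K :=
  (basisMonomials (Fin 8) K).constr K (fun m => ((W m : ℤ) : K))

lemma phi_mono (l : List (Fin 8)) : phi K (mono K l) = ((W (fun j => l.count j) : ℤ) : K) := by
  have h1 : (fun j => l.count j) = ⇑(cnt l) := by
    ext j; rw [cnt_apply]
  rw [mono_eq, h1, phi, ← (basisMonomials (Fin 8) K).constr_basis K (fun m => ((W m : ℤ) : K))]
  simp

lemma phi_F : phi K (F K) = 384 := by
  have : ∀ P : List (ℤ × List (Fin 8)), phi K (poly K P) =
      (((P.map (fun q => q.1 * W (fun j => q.2.count j))).sum : ℤ) : K) := by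
    intro P
    induction P with
    | nil => simp [poly]
    | cons q P ih =>
      unfold poly at *
      rw [List.map_cons, List.sum_cons, map_add, ih, map_smul, phi_mono]
      simp
  rw [F, this, W_F]
  norm_num

lemma length_le_wdeg (b : List (ℤ × ℕ)) (l : List (Fin 8)) : l.length ≤ wdeg b l := by
  induction l with
  | nil => simp
  | cons j l ih => simp only [List.length_cons, wdeg]; omega

lemma key_sum (l : List (Fin 8)) : (key (fun j => l.count j)).sum = l.length := by
  induction l with
  | nil => simp [key]
  | cons j l ih =>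
    simp only [key, List.sum_cons, List.sum_nil, List.count_cons, List.length_cons] at ih ⊢
    fin_cases j <;> simp <;> omega

lemma mem_of_lookup {α β : Type*} [BEq α] [LawfulBEq α] {a : α} {v : β} {L : List (α × β)}
    (h : L.lookup a = some v) : (a, v) ∈ L := by
  induction L with
  | nil => simp at h
  | cons q L ih =>
    obtain ⟨k, w⟩ := q
    by_cases hk : a = k
    · subst hk
      simp at h
      simp [h]
    · rw [List.lookup_cons, show (a == k) = false by simpa using hk] at h
      exact List.mem_cons_of_mem _ (ih h)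

lemma cert_all (s : Fin 8) (l : List (Fin 8)) (hl : l.Pairwise (· ≤ ·)) :
    W (fun j => (s :: l).count j) = rhs s l := by
  match l, hl with
  | [], _ => exact beq_iff_eq.1 (cert0 s)
  | [a], _ => exact beq_iff_eq.1 (cert1 s a)
  | [a, b], _ => exact beq_iff_eq.1 (cert2 s a b)
  | [a, b, c], hl =>
    simp only [List.pairwise_cons, List.mem_cons] at hl
    exact beq_iff_eq.1 (cert3 s a b (hl.1 b (Or.inl rfl)) c (hl.2.1 c (Or.inl rfl)))
  | a :: b :: c :: d :: l, _ =>
    have h1 : W (fun j => (s :: a :: b :: c :: d :: l).count j) = 0 := by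
      unfold W
      cases h : Wdata.lookup (key (fun j => (s :: a :: b :: c :: d :: l).count j)) with
      | none => rfl
      | some v =>
        exfalso
        have h2 := W_keys _ (mem_of_lookup h)
        rw [key_sum] at h2
        simp only [List.length_cons] at h2
        omega
    have h2 : rhs s (a :: b :: c :: d :: l) = 0 := by
      apply List.sum_eq_zero
      intro x hx
      obtain ⟨q, _, rfl⟩ := List.mem_map.1 hx
      have h3 := length_le_wdeg q.2 (a :: b :: c :: d :: l)
      have h4 : dg s ≤ 3 := by unfold dg; split_ifs <;> omega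
      simp only [List.length_cons] at h3
      rw [if_neg (by omega)]
    rw [h1, h2]

lemma phi_X_mul (s : Fin 8) (H : MvPolynomial (Fin 8) K) :
    phi K (X s * H) = ((mu s).map (fun q => (q.1 : K) * (psi K q.2 H).coeff (dg s))).sum := by
  induction H using MvPolynomial.induction_on' with
  | monomial m c =>
    obtain ⟨l, hl, rfl⟩ := exists_sorted m
    have h1 : monomial (cnt l) c = c • mono K l := by
      rw [mono_eq, smul_monomial, smul_eq_mul, mul_one]
    rw [h1, mul_smul_comm, map_smul, ← mono_cons, phi_mono, cert_all s l hl, rhs, Int.cast_list_sum,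
      List.map_map, smul_eq_mul, ← List.sum_map_mul_left]
    congr 1
    apply List.map_congr_left
    intro q _
    rw [map_smul, psi_mono, Polynomial.coeff_smul, Polynomial.coeff_monomial]
    simp only [Function.comp]
    split_ifs <;> simp
    ring
  | add p q hp hq =>
    rw [mul_add, map_add, hp, hq, ← List.sum_map_add]
    congr 1
    apply List.map_congr_left
    intro x _
    rw [map_add, Polynomial.coeff_add, mul_add]

lemma phi_kills (s : Fin 8) (H : MvPolynomial (Fin 8) K) (hH : H ∈ I0 K) :
    phi K (X s * H) = 0 := by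
  rw [phi_X_mul]
  apply List.sum_eq_zero
  intro x hx
  obtain ⟨q, hq, rfl⟩ := List.mem_map.1 hx
  rw [(mem_I0 K).1 hH _ (mu_mem s q hq), Polynomial.coeff_zero, mul_zero]

lemma phi_F_ne [CharZero K] : phi K (F K) ≠ 0 := by
  rw [phi_F]; norm_num

end Pool.Agent.Lib.MP_36a065_ag
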