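import Mathlib

/-!
From a polynomial `F` that lies with all its first partial derivatives in a radical ideal `I`,
and a linear functional that kills `(X) * I` but not `F`, we build a nontrivial evolution of the
reduced local algebra `K[X]_(X) / I`.
-/

namespace Pool.Agent.Lib.MP_36a065_ag

open MvPolynomial TensorProduct

variable {K : Type*} [Field K] {σ : Type*}

/-- Chain rule for a derivation out of an algebra over a polynomial ring. -/
lemma derivation_algHom [Fintype σ] [DecidableEq σ] {T M : Type*} [CommRing T] [Algebra K T]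
    [AddCommGroup M] [Module K M] [Module T M] (D : Derivation K T M)
    (θ : MvPolynomial σ K →ₐ[K] T) (p : MvPolynomial σ K) :
    D (θ p) = ∑ k, θ (pderiv k p) • D (θ (X k)) := by
  induction p using MvPolynomial.induction_on with
  | C c => simp
  | add p q hp hq => simp [hp, hq, add_smul, Finset.sum_add_distrib]
  | mul_X p i hp =>
    rw [map_mul, Derivation.leibniz, hp, Finset.smul_sum]
    simp only [Derivation.leibniz, smul_eq_mul, map_add, map_mul, add_smul,
      Finset.sum_add_distrib, mul_smul]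
    congr 1
    rw [Finset.sum_eq_single i]
    · simp
    · intro b _ hb
      simp [pderiv_X, hb.symm]
    · simp

/-- The maximal ideal of polynomials with zero constant term. -/
noncomputable def mX (K : Type*) [Field K] (σ : Type*) : Ideal (MvPolynomial σ K) :=
  RingHom.ker (constantCoeff : MvPolynomial σ K →+* K)

instance mX_isMaximal : (mX K σ).IsMaximal :=
  RingHom.ker_isMaximal_of_surjective _ (fun c => ⟨C c, by simp⟩)

lemma phi_mul {I : Ideal (MvPolynomial σ K)} {φ : MvPolynomial σ K →ₗ[K] K}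
    (hφ : ∀ s H, H ∈ I → φ (X s * H) = 0) (a H : MvPolynomial σ K) (hH : H ∈ I) :
    φ (a * H) = constantCoeff a * φ H := by
  induction a using MvPolynomial.induction_on with
  | C c => rw [← smul_eq_C_mul, map_smul]; simp
  | add p q hp hq => rw [add_mul, map_add, hp, hq, map_add, add_mul]
  | mul_X p i _ =>
    have : p * X i * H = X i * (p * H) := by ring
    rw [this, hφ i _ (I.mul_mem_left p hH)]
    simp

/-- The smaller ideal `{H ∈ I | φ H = 0}`. -/
def smallIdeal (I : Ideal (MvPolynomial σ K)) (φ : MvPolynomial σ K →ₗ[K] K)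
    (hφ : ∀ s H, H ∈ I → φ (X s * H) = 0) : Ideal (MvPolynomial σ K) where
  carrier := {H | H ∈ I ∧ φ H = 0}
  add_mem' := by
    rintro a b ⟨ha, ha'⟩ ⟨hb, hb'⟩
    exact ⟨I.add_mem ha hb, by rw [map_add, ha', hb', add_zero]⟩
  zero_mem' := ⟨I.zero_mem, map_zero _⟩
  smul_mem' := by
    rintro a H ⟨hH, hH'⟩
    exact ⟨I.mul_mem_left a hH, by rw [smul_eq_mul, phi_mul hφ a H hH, hH', mul_zero]⟩

theorem not_mem_mul {I : Ideal (MvPolynomial σ K)} {φ : MvPolynomial σ K →ₗ[K] K}
    (hφ : ∀ s H, H ∈ I → φ (X s * H) = 0) {F : MvPolynomial σ K} (hF : F ∈ I) (hφF : φ F ≠ 0)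
    (u : MvPolynomial σ K) (hu : constantCoeff u ≠ 0) : u * F ∉ mX K σ * I := by
  intro h
  have h0 : ∀ G ∈ mX K σ * I, φ G = 0 := by
    intro G hG
    refine Submodule.mul_induction_on hG ?_ ?_
    · intro a ha H hH
      rw [phi_mul hφ a H hH, (RingHom.mem_ker).1 ha, zero_mul]
    · intro a b ha hb
      rw [map_add, ha, hb, add_zero]
  have := h0 _ h
  rw [phi_mul hφ u F hF] at this
  exact mul_ne_zero hu hφF this

universe u

theorem exists_evolution_aux {K : Type u} [Field K] {n : ℕ} (S : Type u) [CommRing S]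
    [Algebra (MvPolynomial (Fin n) K) S] [Algebra K S]
    [IsScalarTower K (MvPolynomial (Fin n) K) S] [IsLocalization.AtPrime S (mX K (Fin n))]
    (I : Ideal (MvPolynomial (Fin n) K))
    (hrad : I.IsRadical) (hle : I ≤ mX K (Fin n)) (F : MvPolynomial (Fin n) K) (hF : F ∈ I)
    (hdF : ∀ k, pderiv k F ∈ I) (φ : MvPolynomial (Fin n) K →ₗ[K] K)
    (hφ : ∀ s H, H ∈ I → φ (X s * H) = 0) (hφF : φ F ≠ 0) :
    ∃ (R T : Type u) (_ : CommRing R) (_ : CommRing T) (_ : Algebra K R) (_ : Algebra K T)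
      (_ : Algebra T R) (_ : IsScalarTower K T R),
      IsLocalRing R ∧ IsReduced R ∧ Algebra.EssFiniteType K R ∧
      IsLocalRing T ∧ Algebra.EssFiniteType K T ∧
      Function.Surjective (algebraMap T R) ∧ ¬ Function.Injective (algebraMap T R) ∧
      Function.Bijective (KaehlerDifferential.mapBaseChange K T R) := by
  classical
  let A := MvPolynomial (Fin n) K
  have : IsLocalRing S := IsLocalization.AtPrime.isLocalRing S (mX K (Fin n))
  have : Algebra.EssFiniteType A S :=
    Algebra.EssFiniteType.of_isLocalization S (mX K (Fin n)).primeCompl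
  have : Algebra.EssFiniteType K S := Algebra.EssFiniteType.comp K A S
  let I' := smallIdeal I φ hφ
  have hI' : I' ≤ I := fun _ h => h.1
  let J : Ideal S := I.map (algebraMap A S)
  let J' : Ideal S := I'.map (algebraMap A S)
  have hJ : J' ≤ J := Ideal.map_mono hI'
  have hJm : J ≤ IsLocalRing.maximalIdeal S := by
    rw [← IsLocalization.AtPrime.map_eq_maximalIdeal (mX K (Fin n)) S]
    exact Ideal.map_mono hle
  have hJtop : J ≠ ⊤ := fun h =>
    (IsLocalRing.maximalIdeal.isMaximal S).ne_top (top_le_iff.1 (h ▸ hJm))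
  have hJ'top : J' ≠ ⊤ := fun h => hJtop (top_le_iff.1 (h ▸ hJ))
  let : Algebra (S ⧸ J') (S ⧸ J) := (Ideal.Quotient.factor hJ).toAlgebra
  have halg : ∀ x : S, algebraMap (S ⧸ J') (S ⧸ J) (Ideal.Quotient.mk J' x)
      = Ideal.Quotient.mk J x := fun x => rfl
  have : IsScalarTower K (S ⧸ J') (S ⧸ J) := IsScalarTower.of_algebraMap_eq (fun c => rfl)
  have : Nontrivial (S ⧸ J) := Ideal.Quotient.nontrivial_iff.2 hJtop
  have : Nontrivial (S ⧸ J') := Ideal.Quotient.nontrivial_iff.2 hJ'top
  have hsurj : Function.Surjective (algebraMap (S ⧸ J') (S ⧸ J)) := by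
    intro y
    obtain ⟨x, rfl⟩ := Ideal.Quotient.mk_surjective y
    exact ⟨_, halg x⟩
  let θ : A →ₐ[K] (S ⧸ J') := (Ideal.Quotient.mkₐ K J').comp (IsScalarTower.toAlgHom K A S)
  have hθ : ∀ p : A, θ p = Ideal.Quotient.mk J' (algebraMap A S p) := fun p => rfl
  have hθI : ∀ p ∈ I, algebraMap (S ⧸ J') (S ⧸ J) (θ p) = 0 := by
    intro p hp
    rw [hθ, halg, Ideal.Quotient.eq_zero_iff_mem]
    exact Ideal.mem_map_of_mem _ hp
  refine ⟨S ⧸ J, S ⧸ J', inferInstance, inferInstance, inferInstance, inferInstance,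
    inferInstance, inferInstance, ?_, ?_, inferInstance, ?_, inferInstance, hsurj, ?_, ?_, ?_⟩
  · exact IsLocalRing.of_surjective' (Ideal.Quotient.mk J) Ideal.Quotient.mk_surjective
  · rw [← Ideal.isRadical_iff_quotient_reduced, ← Ideal.radical_eq_iff]
    rw [← IsLocalization.map_radical (mX K (Fin n)).primeCompl S I, hrad.radical]
  · exact IsLocalRing.of_surjective' (Ideal.Quotient.mk J') Ideal.Quotient.mk_surjective
  · intro hinj
    have h1 : θ F = 0 := hinj (by rw [hθI F hF, map_zero])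
    rw [hθ, Ideal.Quotient.eq_zero_iff_mem,
      IsLocalization.algebraMap_mem_map_algebraMap_iff (mX K (Fin n)).primeCompl] at h1
    obtain ⟨u, hu, huF⟩ := h1
    have h2 : φ (u * F) = 0 := huF.2
    rw [phi_mul hφ u F hF] at h2
    exact mul_ne_zero (fun h => hu ((RingHom.mem_ker).2 h)) hφF h2
  · -- injectivity
    have hDF : (1 : S ⧸ J) ⊗ₜ[S ⧸ J'] KaehlerDifferential.D K (S ⧸ J') (θ F) = 0 := by
      rw [derivation_algHom, tmul_sum]
      refine Finset.sum_eq_zero fun k _ => ?_
      rw [← smul_tmul, ← Algebra.algebraMap_eq_smul_one, hθI _ (hdF k), zero_tmul]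
    have hDI : ∀ p ∈ I, (1 : S ⧸ J) ⊗ₜ[S ⧸ J'] KaehlerDifferential.D K (S ⧸ J') (θ p) = 0 := by
      intro p hp
      have hmem : p - (φ p / φ F) • F ∈ I' := by
        refine ⟨I.sub_mem hp ?_, ?_⟩
        · rw [smul_eq_C_mul]; exact I.mul_mem_left _ hF
        · rw [map_sub, map_smul, smul_eq_mul, div_mul_cancel₀ _ hφF, sub_self]
      have h0 : θ (p - (φ p / φ F) • F) = 0 := by
        rw [hθ, Ideal.Quotient.eq_zero_iff_mem]
        exact Ideal.mem_map_of_mem _ hmem
      rw [map_sub, sub_eq_zero, map_smul] at h0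
      rw [h0, Derivation.map_smul, ← algebraMap_smul (S ⧸ J'), tmul_smul, hDF, smul_zero]
    have hDJ : ∀ x ∈ J, (1 : S ⧸ J) ⊗ₜ[S ⧸ J']
        KaehlerDifferential.D K (S ⧸ J') (Ideal.Quotient.mk J' x) = 0 := by
      intro x hx
      induction hx using Submodule.span_induction with
      | mem x hx =>
        obtain ⟨p, hp, rfl⟩ := hx
        exact hDI p hp
      | zero => simp
      | add x y _ _ hx hy => rw [map_add, map_add, tmul_add, hx, hy, add_zero]
      | smul a x hx' hx =>
        rw [smul_eq_mul, map_mul, Derivation.leibniz, tmul_add, tmul_smul, hx, smul_zero,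
          zero_add, ← smul_tmul, ← Algebra.algebraMap_eq_smul_one, halg,
          (Ideal.Quotient.eq_zero_iff_mem (I := J)).2 hx', zero_tmul]
    rw [injective_iff_map_eq_zero]
    intro y hy
    obtain ⟨z, rfl⟩ := (KaehlerDifferential.exact_kerCotangentToTensor_mapBaseChange K
      (S ⧸ J') (S ⧸ J) hsurj y).1 hy
    obtain ⟨⟨z, hz⟩, rfl⟩ := Ideal.toCotangent_surjective _ z
    obtain ⟨x, rfl⟩ := Ideal.Quotient.mk_surjective z
    rw [KaehlerDifferential.kerCotangentToTensor_toCotangent]
    apply hDJ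
    rw [RingHom.mem_ker, halg, Ideal.Quotient.eq_zero_iff_mem] at hz
    exact hz
  · exact KaehlerDifferential.mapBaseChange_surjective K _ _ hsurj

theorem exists_evolution {K : Type u} [Field K] {n : ℕ}
    (I : Ideal (MvPolynomial (Fin n) K))
    (hrad : I.IsRadical) (hle : I ≤ mX K (Fin n)) (F : MvPolynomial (Fin n) K) (hF : F ∈ I)
    (hdF : ∀ k, pderiv k F ∈ I) (φ : MvPolynomial (Fin n) K →ₗ[K] K)
    (hφ : ∀ s H, H ∈ I → φ (X s * H) = 0) (hφF : φ F ≠ 0) :
    ∃ (R T : Type u) (_ : CommRing R) (_ : CommRing T) (_ : Algebra K R) (_ : Algebra K T)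
      (_ : Algebra T R) (_ : IsScalarTower K T R),
      IsLocalRing R ∧ IsReduced R ∧ Algebra.EssFiniteType K R ∧
      IsLocalRing T ∧ Algebra.EssFiniteType K T ∧
      Function.Surjective (algebraMap T R) ∧ ¬ Function.Injective (algebraMap T R) ∧
      Function.Bijective (KaehlerDifferential.mapBaseChange K T R) :=
  exists_evolution_aux (Localization.AtPrime (mX K (Fin n))) I hrad hle F hF hdF φ hφ hφF

end Pool.Agent.Lib.MP_36a065_ag
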